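import Mathlib
import Pool.Agent.H892.ZL.Stm2

/-!
# Project ZL, task NETH: the equation of the complex is homogeneous of degree three
-/

set_option autoImplicit false

namespace Pool.Agent.H200.ZL

open Pool.Agent.H892.ZL
open MvPolynomial Matrix

/-- all the entries are homogeneous of degree `d` -/
def HM (d : ℕ) (M : Matrix (Fin 4) (Fin 4) (MvPolynomial (Fin 6) ℂ)) : Prop :=
  ∀ i j, (M i j).IsHomogeneous d

theorem HM.mul {a b : ℕ} {M N : Matrix (Fin 4) (Fin 4) (MvPolynomial (Fin 6) ℂ)} (hM : HM a M)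
    (hN : HM b N) : HM (a + b) (M * N) := by
  intro i j
  rw [Matrix.mul_apply]
  exact MvPolynomial.IsHomogeneous.sum _ _ _ fun k _ => (hM i k).mul (hN k j)

theorem HM_C (A : Matrix (Fin 4) (Fin 4) ℂ) : HM 0 (A.map C) := by
  intro i j
  rw [Matrix.map_apply]
  exact isHomogeneous_C _ _

theorem HM_phat : HM 1 (phat X) := by
  have h0 : (0 : MvPolynomial (Fin 6) ℂ).IsHomogeneous 1 := isHomogeneous_zero _ _ _
  have h1 : ∀ i : Fin 6, (X i : MvPolynomial (Fin 6) ℂ).IsHomogeneous 1 := fun i =>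
    isHomogeneous_X _ i
  have h2 : ∀ i : Fin 6, (-(X i : MvPolynomial (Fin 6) ℂ)).IsHomogeneous 1 := fun i => (h1 i).neg
  intro i j
  fin_cases i <;> fin_cases j
  · exact h0
  · exact h1 0
  · exact h1 1
  · exact h1 2
  · exact h2 0
  · exact h0
  · exact h1 3
  · exact h1 4
  · exact h2 1
  · exact h2 3
  · exact h0
  · exact h1 5
  · exact h2 2
  · exact h2 4
  · exact h2 5
  · exact h0

theorem t_NETH : S_NETH := by
  intro Q
  have h : HM 3 ((Q 0).map C * phat X * (Q 1).map C * phat X * (Q 2).map C * phat X) :=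
    (((((HM_C (Q 0)).mul HM_phat).mul (HM_C (Q 1))).mul HM_phat).mul (HM_C (Q 2))).mul HM_phat
  unfold NetK
  refine MvPolynomial.IsHomogeneous.neg ?_
  unfold Matrix.trace
  exact MvPolynomial.IsHomogeneous.sum _ _ _ fun k _ => h k k

end Pool.Agent.H200.ZL
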